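import Pool.Agent.Helper24.N9.Deg3
import Pool.Agent.Helper24.N9.T1
import Pool.Agent.Helper93.N9.Rays
import Pool.Agent.Helper74.N9.Deg1a

/-! MP_9b91d1_co: rows CSEQ, POTC (helper29). -/

open scoped RealInnerProductSpace Topology

namespace Pool.Agent.Helper30.N9

namespace H29

/-- the point with longitude θ on the great circle orthogonal to n -/
noncomputable def pt (n r0 : E3) (θ : ℝ) : E3 := Real.cos θ • r0 + Real.sin θ • crs n r0

theorem pt_zero (n r0 : E3) : pt n r0 0 = r0 := by simp [pt]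

theorem pt_two_pi (n r0 : E3) : pt n r0 (2 * Real.pi) = r0 := by simp [pt]

theorem det3_smul_left' (a b c : E3) (t : ℝ) : det3 a (t • b) c = t * det3 a b c := by
  simp only [det3, PiLp.smul_apply, smul_eq_mul]; ring

theorem det3_add_left' (a b b' c : E3) : det3 a (b + b') c = det3 a b c + det3 a b' c := by
  simp only [det3, PiLp.add_apply]; ring

theorem det3_pt {n r0 : E3} (hn : ‖n‖ = 1) (hr : ‖r0‖ = 1) (h0 : ⟪n, r0⟫ = 0) (α β : ℝ) :
    det3 n (pt n r0 α) (pt n r0 β) = Real.sin (β - α) := by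
  have e1 : det3 n r0 (crs n r0) = 1 := by
    rw [det3_crs, crs_inner_self, inner_self_one hn, inner_self_one hr, h0]; norm_num
  have e2 : det3 n (crs n r0) r0 = -1 := by rw [det3_swap, e1]
  have e3 : det3 n r0 r0 = 0 := det3_self_right _ _
  have e4 : det3 n (crs n r0) (crs n r0) = 0 := det3_self_right _ _
  unfold pt
  rw [det3_add_left', det3_add_right, det3_add_right]
  simp only [det3_smul_left', det3_smul_right]
  rw [e1, e2, e3, e4, Real.sin_sub]
  ring

/-- a point between two points of the circle -/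
theorem pt_mem_arc {n r0 : E3} {α β γ : ℝ}
    (h1 : 0 < Real.sin (β - α)) (h2 : 0 ≤ Real.sin (β - γ)) (h3 : 0 ≤ Real.sin (γ - α))
    (hu : ‖pt n r0 γ‖ = 1) : pt n r0 γ ∈ arc (pt n r0 α) (pt n r0 β) := by
  refine ⟨hu, Real.sin (β - γ) / Real.sin (β - α), Real.sin (γ - α) / Real.sin (β - α),
    div_nonneg h2 h1.le, div_nonneg h3 h1.le, ?_⟩
  have k1 : Real.sin (β - γ) / Real.sin (β - α) * Real.cos α +
      Real.sin (γ - α) / Real.sin (β - α) * Real.cos β = Real.cos γ := by
    field_simp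
    simp only [Real.sin_sub]
    have := Real.sin_sq_add_cos_sq γ
    ring
  have k2 : Real.sin (β - γ) / Real.sin (β - α) * Real.sin α +
      Real.sin (γ - α) / Real.sin (β - α) * Real.sin β = Real.sin γ := by
    field_simp
    simp only [Real.sin_sub]
    ring
  unfold pt
  rw [← k1, ← k2]
  module

variable {V : Type} [Fintype V] [DecidableEq V] {M : PlaneGraph V}

open Classical in
/-- closedness of the boundary -/
theorem bd_closed (T : M.Face → Prop) (g : V → ℝ) :
    ∑ d : M.G.Dart, (if M.Bd T d then g d.snd - g d.fst else 0) = 0 := by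
  have h1 : ∑ d : M.G.Dart, (if T (M.fc d) then g d.snd - g d.fst else 0) = 0 := by
    rw [← PlaneGraph.sum_faces]
    apply Finset.sum_eq_zero
    intro w _
    by_cases hw : T w
    · have h2 : ∀ e ∈ M.fdarts w, (if T (M.fc e) then g e.snd - g e.fst else 0) =
          g e.snd - g e.fst := by
        intro e he
        rw [PlaneGraph.mem_fdarts] at he
        rw [he, if_pos hw]
      rw [Finset.sum_congr rfl h2, Finset.sum_sub_distrib, PlaneGraph.sum_snd, sub_self]
    · apply Finset.sum_eq_zero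
      intro e he
      rw [PlaneGraph.mem_fdarts] at he
      rw [he, if_neg hw]
  have h2 : ∑ d : M.G.Dart, (if T (M.fc d) ∧ T (M.fc d.symm) then g d.snd - g d.fst else 0) =
      0 := by
    apply PlaneGraph.sum_darts_zero
    intro d
    by_cases h : T (M.fc d) ∧ T (M.fc d.symm)
    · rw [if_pos h, if_pos (by rw [SimpleGraph.Dart.symm_symm]; exact h.symm)]
      show g d.fst - g d.snd = _
      ring
    · rw [if_neg h, if_neg (by rw [SimpleGraph.Dart.symm_symm]; exact fun h' => h h'.symm)]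
      ring
  have h3 : ∑ d : M.G.Dart, (if M.Bd T d then g d.snd - g d.fst else 0) =
      ∑ d : M.G.Dart, (if T (M.fc d) then g d.snd - g d.fst else 0) -
      ∑ d : M.G.Dart, (if T (M.fc d) ∧ T (M.fc d.symm) then g d.snd - g d.fst else 0) := by
    rw [← Finset.sum_sub_distrib]
    apply Finset.sum_congr rfl
    intro d _
    unfold PlaneGraph.Bd
    by_cases h : T (M.fc d) <;> by_cases h' : T (M.fc d.symm) <;> simp [h, h']
  rw [h3, h1, h2, sub_zero]

/-- where a boundary dart ends, a boundary dart starts -/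
theorem exists_start {T : M.Face → Prop} {d : M.G.Dart} (hd : M.Bd T d) :
    ∃ e, M.Bd T e ∧ e.fst = d.snd := by
  classical
  by_contra hcon
  push Not at hcon
  have h1 := bd_closed T (fun v => if v = d.snd then (1 : ℝ) else 0)
  have h2 : ∀ e : M.G.Dart, 0 ≤ (if M.Bd T e then (if e.snd = d.snd then (1 : ℝ) else 0) -
      (if e.fst = d.snd then (1 : ℝ) else 0) else 0) := by
    intro e
    by_cases he : M.Bd T e
    · rw [if_pos he, if_neg (hcon e he), sub_zero]
      split_ifs <;> norm_num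
    · rw [if_neg he]
  have h3 := (Finset.sum_eq_zero_iff_of_nonneg (fun e _ => h2 e)).mp h1 d (Finset.mem_univ _)
  rw [if_pos hd, if_neg (hcon d hd), if_pos rfl] at h3
  norm_num at h3

theorem bd_perp {p : V → E3} {n : E3} {U : M.Face → Prop} (hE : M.Equ p n U) {d : M.G.Dart}
    (hd : M.Bd U d) : ⟪n, p d.fst⟫ = 0 ∧ ⟪n, p d.snd⟫ = 0 ∧ 0 < det3 n (p d.fst) (p d.snd) := by
  obtain ⟨c, hc, hcr⟩ := hE.bd d hd
  have key : ∀ x : E3, det3 (p d.fst) (p d.snd) x = c * ⟪n, x⟫ := by
    intro x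
    rw [← crs_inner, hcr, real_inner_smul_left]
  refine ⟨?_, ?_, ?_⟩
  · have h1 := key (p d.fst)
    rw [det3_self_left] at h1
    rcases mul_eq_zero.mp h1.symm with h | h
    · exact absurd h hc.ne'
    · exact h
  · have h1 := key (p d.snd)
    rw [det3_self_right] at h1
    rcases mul_eq_zero.mp h1.symm with h | h
    · exact absurd h hc.ne'
    · exact h
  · have h1 := key n
    rw [inner_self_one hE.un, mul_one] at h1
    rw [← det3_rot, h1]
    exact hc

theorem th_le {k : ℕ} {th : ℕ → ℝ} (h : ∀ i < k, th i < th (i + 1)) {i j : ℕ} (hij : i ≤ j)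
    (hj : j ≤ k) : th i ≤ th j := by
  induction j with
  | zero =>
      have : i = 0 := by omega
      rw [this]
  | succ j ih =>
      rcases Nat.lt_or_ge i (j + 1) with h1 | h1
      · exact (ih (by omega) (by omega)).trans (h j (by omega)).le
      · have : i = j + 1 := by omega
        rw [this]

/-- next point -/
theorem next_sin {k : ℕ} {th : ℕ → ℝ} (h : ∀ i < k, th i < th (i + 1)) (h0 : th 0 = 0)
    (hk : th k = 2 * Real.pi) {i j : ℕ} (hi : i < k) (hj : j < k)
    (hs : 0 < Real.sin (th j - th i)) :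
    0 ≤ Real.sin (th j - th (i + 1)) ∧ 0 < Real.sin (th (i + 1) - th i) ∧
      th (i + 1) < th i + Real.pi := by
  have hpi := Real.pi_pos
  have h1 := h i hi
  have hil : 0 ≤ th i := by rw [← h0]; exact th_le h (Nat.zero_le _) hi.le
  have hjl : 0 ≤ th j := by rw [← h0]; exact th_le h (Nat.zero_le _) hj.le
  have hil2 : th (i + 1) ≤ 2 * Real.pi := by rw [← hk]; exact th_le h (by omega) le_rfl
  have hjl2 : th j ≤ 2 * Real.pi := by rw [← hk]; exact th_le h (by omega) le_rfl
  have main : ∀ β : ℝ, Real.sin (β - th i) = Real.sin (th j - th i) →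
      Real.sin (β - th (i + 1)) = Real.sin (th j - th (i + 1)) → th (i + 1) ≤ β →
      β - th i ≤ 2 * Real.pi → 0 ≤ Real.sin (th j - th (i + 1)) ∧
        0 < Real.sin (th (i + 1) - th i) ∧ th (i + 1) < th i + Real.pi := by
    intro β e1 e2 e3 e4
    have e5 : β - th i < Real.pi := by
      by_contra hcon
      push Not at hcon
      have e6 : Real.sin (β - th i - 2 * Real.pi) ≤ 0 :=
        Real.sin_nonpos_of_nonpos_of_neg_pi_le (by linarith) (by linarith)
      rw [Real.sin_sub_two_pi] at e6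
      linarith
    refine ⟨?_, ?_, by linarith⟩
    · rw [← e2]
      exact Real.sin_nonneg_of_nonneg_of_le_pi (by linarith) (by linarith)
    · exact Real.sin_pos_of_pos_of_lt_pi (by linarith) (by linarith)
  rcases Nat.lt_or_ge i j with hij | hij
  · exact main (th j) rfl rfl (th_le h hij hj.le) (by linarith)
  · have e1 : th j ≤ th i := th_le h hij hi.le
    refine main (th j + 2 * Real.pi) ?_ ?_ (by linarith) (by linarith)
    · rw [show th j + 2 * Real.pi - th i = th j - th i + 2 * Real.pi by ring, Real.sin_add_two_pi]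
    · rw [show th j + 2 * Real.pi - th (i + 1) = th j - th (i + 1) + 2 * Real.pi by ring,
        Real.sin_add_two_pi]

end H29

open H29

theorem st_CSEQ : ST_CSEQ := by
  classical
  intro V _ _ M p h n U hS hE
  obtain ⟨d0, hd0⟩ := hE.ex
  obtain ⟨r0, hr0⟩ : ∃ r0 : E3, r0 = p d0.fst := ⟨_, rfl⟩
  have hr0u : ‖r0‖ = 1 := by rw [hr0]; exact hS.inc.unit _
  have hnr0 : ⟪n, r0⟫ = 0 := by rw [hr0]; exact (bd_perp hE hd0).1
  obtain ⟨R, hR⟩ : ∃ R : Finset E3,
      R = (Finset.univ.filter (fun d => M.Bd U d)).image (fun d => p d.fst) := ⟨_, rfl⟩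
  have hmem : ∀ r, r ∈ R ↔ ∃ d, M.Bd U d ∧ p d.fst = r := by
    intro r
    rw [hR]
    simp
  obtain ⟨k, th, hk, th0, thl, thk, hRk⟩ := st_RAYS n r0 hE.un R
    ((hmem r0).mpr ⟨d0, hd0, hr0.symm⟩) (by
      intro r hr
      obtain ⟨d, hd, rfl⟩ := (hmem r).mp hr
      exact ⟨hS.inc.unit _, (bd_perp hE hd).1⟩)
  have : Nonempty M.G.Dart := ⟨d0⟩
  have hD' : ∀ i, i < k → ∃ d, M.Bd U d ∧ p d.fst = pt n r0 (th i) := by
    intro i hi
    exact (hmem _).mp ((hRk _).mpr ⟨i, hi, rfl⟩)
  choose! D hD using hD'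
  obtain ⟨v, hv⟩ : ∃ v : ℕ → V, v = fun i => if i < k then (D i).fst else (D 0).fst := ⟨_, rfl⟩
  have hv1 : ∀ i < k, v i = (D i).fst := by
    intro i hi
    rw [hv]
    simp only [if_pos hi]
  have hvk : v k = v 0 := by
    rw [hv]
    simp [hk]
  have hpv0 : p (v 0) = r0 := by
    rw [hv1 0 hk, (hD 0 hk).2, th0, pt_zero]
  have hpv : ∀ i ≤ k, p (v i) = pt n r0 (th i) := by
    intro i hi
    rcases Nat.lt_or_ge i k with h1 | h1
    · rw [hv1 i h1, (hD i h1).2]
    · have : i = k := le_antisymm hi h1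
      rw [this, hvk, hpv0, thk, pt_two_pi]
  have hst : ∀ i ≤ k, ∃ e, M.Bd U e ∧ e.fst = v i := by
    intro i hi
    rcases Nat.lt_or_ge i k with h1 | h1
    · exact ⟨D i, (hD i h1).1, (hv1 i h1).symm⟩
    · have : i = k := le_antisymm hi h1
      rw [this, hvk, hv1 0 hk]
      exact ⟨D 0, (hD 0 hk).1, rfl⟩
  -- key
  have key : ∀ i < k, ∀ d, M.Bd U d → d.fst = v i →
      d.snd = v (i + 1) ∧ th (i + 1) < th i + Real.pi := by
    intro i hi d hd hdv
    obtain ⟨e, he, hes⟩ := exists_start hd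
    obtain ⟨j, hj, hej⟩ := (hRk _).mp ((hmem (p e.fst)).mpr ⟨e, he, rfl⟩)
    have hps : p d.snd = pt n r0 (th j) := by rw [← hes]; exact hej
    have hpf : p d.fst = pt n r0 (th i) := by rw [hdv]; exact hpv i hi.le
    have hs : 0 < Real.sin (th j - th i) := by
      have := (bd_perp hE hd).2.2
      rwa [hpf, hps, det3_pt hE.un hr0u hnr0] at this
    obtain ⟨h1, h2, h3⟩ := next_sin thl th0 thk hi hj hs
    refine ⟨?_, h3⟩
    by_contra hcon
    have hpn : p (v (i + 1)) = pt n r0 (th (i + 1)) := hpv (i + 1) hi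
    have hne : v (i + 1) ≠ d.fst := by
      intro heq
      have h4 : det3 n (pt n r0 (th i)) (pt n r0 (th (i + 1))) = 0 := by
        rw [← hpf, ← hpn, heq, det3_self_right]
      rw [det3_pt hE.un hr0u hnr0] at h4
      linarith
    have hne2 : v (i + 1) ≠ d.snd := fun heq => hcon heq.symm
    obtain ⟨e', he', hes'⟩ := hst (i + 1) hi
    have hx : p (v (i + 1)) ∈ arc (p d.fst) (p d.snd) := by
      rw [hpn, hpf, hps]
      refine pt_mem_arc hs h1 h2.le ?_
      rw [← hpn]
      exact hS.inc.unit _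
    have hedge : d.edge ≠ e'.edge := by
      intro heq
      have h5 : v (i + 1) ∈ d.edge := by
        rw [heq, ← hes']
        exact Sym2.mem_mk_left _ _
      rcases PlaneGraph.mem_edge h5 with h6 | h6
      · exact hne h6
      · exact hne2 h6
    obtain ⟨w, hw, -, hxw⟩ := hS.inc.embed d e' hedge _ hx (by
      rw [← hes']
      exact left_mem_arc (hS.inc.unit _))
    have hvw : v (i + 1) = w := hS.inc.inj hxw
    rw [← hvw] at hw
    rcases PlaneGraph.mem_edge hw with h6 | h6
    · exact hne h6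
    · exact hne2 h6
  refine ⟨k, th, v, hk, th0, ?_, thk, hvk, ?_, ?_, ?_, ?_⟩
  · intro i hi
    obtain ⟨d, hd, hdv⟩ := hst i hi.le
    exact ⟨thl i hi, (key i hi d hd hdv).2⟩
  · rw [hpv0, hnr0]
  · intro i hi
    rw [hpv0]
    exact hpv i hi
  · intro i hi
    obtain ⟨d, hd, hdv⟩ := hst i hi.le
    exact ⟨d, hd, hdv, (key i hi d hd hdv).1⟩
  · intro d hd
    obtain ⟨i, hi, hei⟩ := (hRk _).mp ((hmem (p d.fst)).mpr ⟨d, hd, rfl⟩)
    have hdv : d.fst = v i := by
      apply hS.inc.inj
      rw [hpv i hi.le]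
      exact hei
    exact ⟨i, hi, hdv, (key i hi d hd hdv).1⟩

theorem st_POTC : ST_POTC := by
  intro V _ _ M p h n U hS hE
  obtain ⟨k, th, v, hk, th0, thl, thk, hvk, hn0, hpv, hst, hall⟩ := st_CSEQ V M p h n U hS hE
  obtain ⟨d0, hd0⟩ := hE.ex
  apply N9Deg.st_POT0 V M (PlaneGraph.conn_of_c3 hS.c3) U ⟨M.fc d0, hd0.1⟩
  intro u hu
  have hstep : ∀ i ≤ k, u (v i) = u (v 0) := by
    intro i
    induction i with
    | zero => intro _; rfl
    | succ i ih =>
        intro hi
        obtain ⟨d, hd, h1, h2⟩ := hst i (by omega)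
        have h3 := hu d (fun h => hd.2 h.2)
        rw [h1, h2] at h3
        rw [← h3]
        exact ih (by omega)
  have hon : ∀ a, M.OnB U a → u a = u (v 0) := by
    rintro a ⟨d, rfl, hd | hd⟩
    · obtain ⟨i, hi, h1, -⟩ := hall d hd
      rw [h1]
      exact hstep i hi.le
    · obtain ⟨i, hi, -, h1⟩ := hall d.symm hd
      have h2 : d.fst = v (i + 1) := h1
      rw [h2]
      exact hstep (i + 1) hi
  intro a b ha hb
  rw [hon a ha, hon b hb]

end Pool.Agent.Helper30.N9
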