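import Pool.Agent.Helper29.N9.Exact

/-! MP_9b91d1_co: row LIFT (helper29). -/

open scoped RealInnerProductSpace Topology

namespace Pool.Agent.Helper30.N9

namespace Lift29

variable {V : Type} [Fintype V] [DecidableEq V] (M : PlaneGraph V)

theorem sum_fst {A : Type*} [AddCommMonoid A] (f : M.G.Dart → A) :
    ∑ v : V, ∑ d ∈ Finset.univ.filter (fun d : M.G.Dart => d.fst = v), f d = ∑ d, f d :=
  Finset.sum_fiberwise Finset.univ (fun d : M.G.Dart => d.fst) f

theorem sum_symm {A : Type*} [AddCommMonoid A] (f : M.G.Dart → A) :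
    ∑ d : M.G.Dart, f d.symm = ∑ d, f d := by
  refine Finset.sum_bij' (fun d _ => d.symm) (fun d _ => d.symm) ?_ ?_ ?_ ?_ ?_ <;> simp

open Classical in
/-- differences of face values on the inner darts -/
noncomputable def del (T : M.Face → Prop) : (M.Face → ℝ) →ₗ[ℝ] (M.G.Dart → ℝ) where
  toFun x d := if T (M.fc d) ∧ T (M.fc d.symm) then x (M.fc d) - x (M.fc d.symm) else 0
  map_add' a b := by
    funext d
    simp only [Pi.add_apply]
    split_ifs <;> ring
  map_smul' c a := by
    funext d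
    simp only [Pi.smul_apply, smul_eq_mul, RingHom.id_apply]
    split_ifs <;> ring

open Classical in
theorem del_apply (T : M.Face → Prop) (x : M.Face → ℝ) (d : M.G.Dart) :
    del M T x d = if T (M.fc d) ∧ T (M.fc d.symm) then x (M.fc d) - x (M.fc d.symm) else 0 := rfl

theorem scalar (hc : M.G.Connected) (T : M.Face → Prop) (F : M.G.Dart → ℝ)
    (h1 : ∀ d, F d.symm = - F d)
    (h2 : ∀ d, ¬ (T (M.fc d) ∧ T (M.fc d.symm)) → F d = 0)
    (h3 : ∀ v, (∀ d : M.G.Dart, d.fst = v → T (M.fc d)) →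
      ∑ d ∈ Finset.univ.filter (fun d : M.G.Dart => d.fst = v), F d = 0)
    (h4 : ∀ u : V → ℝ, (∀ d : M.G.Dart, ¬ (T (M.fc d) ∧ T (M.fc d.symm)) → u d.fst = u d.snd) →
      ∀ a b : M.G.Dart, ¬ T (M.fc a) → ¬ T (M.fc b) → u a.fst = u b.fst) :
    ∃ x : M.Face → ℝ, ∀ d, T (M.fc d) → T (M.fc d.symm) →
      x (M.fc d) - x (M.fc d.symm) = F d := by
  classical
  by_cases hF : F ∈ LinearMap.range (del M T)
  · obtain ⟨x, hx⟩ := hF
    refine ⟨x, fun d hd hd' => ?_⟩
    rw [← hx, del_apply, if_pos ⟨hd, hd'⟩]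
  exfalso
  obtain ⟨ψ, hψ2, hψ⟩ := Submodule.exists_le_ker_of_notMem hF
  -- coefficients
  set c0 : M.G.Dart → ℝ := fun d => ψ (Pi.single d 1) with hc0
  have hψs : ∀ G : M.G.Dart → ℝ, ψ G = ∑ d, c0 d * G d := by
    intro G
    have hG : G = ∑ d, G d • (Pi.single d 1 : M.G.Dart → ℝ) := by
      funext e
      rw [Finset.sum_apply]
      simp [Pi.single_apply]
    conv_lhs => rw [hG]
    rw [map_sum]
    refine Finset.sum_congr rfl fun d _ => ?_
    rw [map_smul, smul_eq_mul, mul_comm]
  set c : M.G.Dart → ℝ := fun d =>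
    if T (M.fc d) ∧ T (M.fc d.symm) then c0 d - c0 d.symm else 0 with hcdef
  have hcs : ∀ d, c d.symm = - c d := by
    intro d
    simp only [hcdef, SimpleGraph.Dart.symm_symm]
    by_cases h : T (M.fc d) ∧ T (M.fc d.symm)
    · rw [if_pos h, if_pos h.symm]; ring
    · rw [if_neg h, if_neg fun h' => h h'.symm]; ring
  -- for antisymmetric functions supported on the inner darts
  have hψc : ∀ G : M.G.Dart → ℝ, (∀ d, G d.symm = - G d) →
      (∀ d, ¬ (T (M.fc d) ∧ T (M.fc d.symm)) → G d = 0) → ∑ d, c d * G d = 2 * ψ G := by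
    intro G hG1 hG2
    have e1 : ∀ d, c d * G d = c0 d * G d + c0 d.symm * G d.symm := by
      intro d
      simp only [hcdef]
      by_cases h : T (M.fc d) ∧ T (M.fc d.symm)
      · rw [if_pos h, hG1]; ring
      · rw [if_neg h, hG1, hG2 d h]; ring
    rw [Finset.sum_congr rfl fun d _ => e1 d, Finset.sum_add_distrib,
      sum_symm M (fun d => c0 d * G d), hψs]
    ring
  have hclosed : ∀ f : M.Face, ∑ e ∈ M.fdarts f, c e = 0 := by
    intro f
    have hk : ψ (del M T (Pi.single f 1)) = 0 := hψ ⟨_, rfl⟩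
    have e1 := hψc (del M T (Pi.single f 1)) (by
      intro d
      rw [del_apply, del_apply, SimpleGraph.Dart.symm_symm]
      by_cases h : T (M.fc d) ∧ T (M.fc d.symm)
      · rw [if_pos h, if_pos h.symm]; ring
      · rw [if_neg h, if_neg fun h' => h h'.symm]; ring) (by
      intro d h
      rw [del_apply, if_neg h])
    rw [hk, mul_zero] at e1
    have e2 : ∀ d, c d * del M T (Pi.single f 1) d =
        (if M.fc d = f then c d else 0) + (if M.fc d.symm = f then c d.symm else 0) := by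
      intro d
      rw [hcs, del_apply]
      by_cases h : T (M.fc d) ∧ T (M.fc d.symm)
      · rw [if_pos h, Pi.single_apply, Pi.single_apply]
        split_ifs <;> ring
      · have : c d = 0 := by simp only [hcdef]; rw [if_neg h]
        rw [this]
        simp
    rw [Finset.sum_congr rfl fun d _ => e2 d, Finset.sum_add_distrib,
      sum_symm M (fun d => if M.fc d = f then c d else 0)] at e1
    have e3 : ∑ e ∈ M.fdarts f, c e = ∑ d, (if M.fc d = f then c d else 0) := by
      unfold PlaneGraph.fdarts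
      rw [Finset.sum_filter]
    rw [e3]; linarith
  obtain ⟨u, hu⟩ := Exact29.main hc c hcs hclosed
  have hu0 : ∀ d : M.G.Dart, ¬ (T (M.fc d) ∧ T (M.fc d.symm)) → u d.fst = u d.snd := by
    intro d h
    have : c d = 0 := by simp only [hcdef]; rw [if_neg h]
    rw [hu] at this
    linarith
  have hK : ∃ K : ℝ, ∀ a : M.G.Dart, ¬ T (M.fc a) → u a.fst = K := by
    by_cases h : ∃ a : M.G.Dart, ¬ T (M.fc a)
    · obtain ⟨a, ha⟩ := h
      exact ⟨u a.fst, fun b hb => h4 u hu0 b a hb ha⟩
    · exact ⟨0, fun a ha => absurd ⟨a, ha⟩ h⟩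
  obtain ⟨K, hK⟩ := hK
  have e1 := hψc F h1 h2
  have e2 : ∑ d, c d * F d = -2 * ∑ d : M.G.Dart, u d.fst * F d := by
    have e3 : ∀ d : M.G.Dart, c d * F d = - (u d.fst * F d) - (u d.symm.fst * F d.symm) := by
      intro d
      rw [h1, hu]
      change _ = - (u d.fst * F d) - (u d.snd * - F d)
      ring
    rw [Finset.sum_congr rfl fun d _ => e3 d, Finset.sum_sub_distrib, Finset.sum_neg_distrib,
      sum_symm M (fun d => u d.fst * F d)]
    ring
  have e4 : ∑ d : M.G.Dart, u d.fst * F d = K * ∑ d : M.G.Dart, F d := by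
    rw [← sum_fst, ← sum_fst M F, Finset.mul_sum]
    refine Finset.sum_congr rfl fun v _ => ?_
    have e5 : ∑ d ∈ Finset.univ.filter (fun d : M.G.Dart => d.fst = v), u d.fst * F d
        = u v * ∑ d ∈ Finset.univ.filter (fun d : M.G.Dart => d.fst = v), F d := by
      rw [Finset.mul_sum]
      refine Finset.sum_congr rfl fun d hd => ?_
      rw [(Finset.mem_filter.1 hd).2]
    rw [e5]
    by_cases hv : ∀ d : M.G.Dart, d.fst = v → T (M.fc d)
    · rw [h3 v hv]; ring
    · push Not at hv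
      obtain ⟨d, hd, hd'⟩ := hv
      rw [← hd, hK d hd']
  have e6 : ∑ d : M.G.Dart, F d = 0 := PlaneGraph.sum_darts_zero h1
  rw [e2, e4, e6] at e1
  apply hψ2
  linarith

end Lift29

theorem lift : ST_LIFT := by
  intro V _ _ M hc T F h1 h2 h3 h4
  have key : ∀ i : Fin 3, ∃ x : M.Face → ℝ, ∀ d, T (M.fc d) → T (M.fc d.symm) →
      x (M.fc d) - x (M.fc d.symm) = F d i := by
    intro i
    refine Lift29.scalar M hc T (fun d => F d i) (fun d => ?_) (fun d h => ?_) (fun v hv => ?_) h4
    · simp only [h1 d]; rfl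
    · simp only [h2 d h]; rfl
    · have := congrArg (fun z : E3 => z i) (h3 v hv)
      simp only [WithLp.ofLp_sum, Finset.sum_apply] at this
      exact this
  choose x hx using key
  refine ⟨fun f => WithLp.toLp 2 (fun i => x i f), fun d hd hd' => ?_⟩
  ext i
  exact hx i d hd hd'

end Pool.Agent.Helper30.N9
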