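import Pool.Agent.Helper30.N9.Sheet

/-! MP_9b91d1_co: row EXACT (helper29). -/

open scoped RealInnerProductSpace Topology

namespace Pool.Agent.Helper30.N9

namespace Exact29

variable {V : Type} [Fintype V] [DecidableEq V] (M : PlaneGraph V)

theorem const_conn (h : M.G.Connected) {A : Type*} (φ : V → A)
    (hφ : ∀ d : M.G.Dart, φ d.fst = φ d.snd) (a b : V) : φ a = φ b := by
  obtain ⟨w⟩ := h.preconnected a b
  induction w with
  | nil => rfl
  | @cons u v w' hadj _ ih => exact Eq.trans (hφ ⟨(u, v), hadj⟩) ih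

/-- A function on the darts invariant under `nxt` and reversal is constant. -/
theorem dart_const (h : M.G.Connected) {A : Type*} (S : M.G.Dart → A)
    (h1 : ∀ d, S (M.nxt d) = S d) (h2 : ∀ d, S d.symm = S d) (d e : M.G.Dart) : S d = S e := by
  have hrot : ∀ d, S (M.rot d) = S d := fun d => by rw [M.rot_eq, h1, h2]
  have hpow : ∀ (n : ℕ) d, S ((M.rot ^ n) d) = S d := by
    intro n
    induction n with
    | zero => intro d; rfl
    | succ n ih => intro d; rw [pow_succ', Equiv.Perm.mul_apply, hrot, ih]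
  have hv : ∀ d e : M.G.Dart, d.fst = e.fst → S d = S e := by
    intro d e hde
    obtain ⟨n, -, hn⟩ := (M.trans d e hde).exists_pow_eq''
    rw [← hn.2, hpow]
  have h3 := const_conn M h (fun v => {a | ∃ d : M.G.Dart, d.fst = v ∧ S d = a}) (by
    intro d
    ext a
    constructor
    · rintro ⟨e, he, rfl⟩
      exact ⟨d.symm, rfl, by rw [h2]; exact hv _ _ he.symm⟩
    · rintro ⟨e, he, rfl⟩
      exact ⟨d, rfl, by rw [← h2]; exact hv _ _ he.symm⟩) d.fst e.fst
  have h4 : S d ∈ {a | ∃ d' : M.G.Dart, d'.fst = e.fst ∧ S d' = a} := by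
    have : S d ∈ {a | ∃ d' : M.G.Dart, d'.fst = d.fst ∧ S d' = a} := ⟨d, rfl, rfl⟩
    exact h3 ▸ this
  obtain ⟨d', hd', h5⟩ := h4
  rw [← h5]
  exact hv _ _ hd'

theorem exists_dt (e : M.G.edgeSet) : ∃ d : M.G.Dart, d.edge = e.1 := by
  rcases e with ⟨e, he⟩
  induction e with
  | _ u v => exact ⟨⟨(u, v), he⟩, rfl⟩

/-- an orientation -/
noncomputable def dt (e : M.G.edgeSet) : M.G.Dart := (exists_dt M e).choose

theorem dt_edge (e : M.G.edgeSet) : (dt M e).edge = e.1 := (exists_dt M e).choose_spec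

/-- the edge of a dart -/
def ed (d : M.G.Dart) : M.G.edgeSet := ⟨d.edge, d.edge_mem⟩

theorem ed_symm (d : M.G.Dart) : ed M d.symm = ed M d := Subtype.ext d.edge_symm

theorem ed_dt (e : M.G.edgeSet) : ed M (dt M e) = e := Subtype.ext (dt_edge M e)

theorem dt_ed (d : M.G.Dart) : dt M (ed M d) = d ∨ dt M (ed M d) = d.symm := by
  have h := dt_edge M (ed M d)
  exact (SimpleGraph.dart_edge_eq_iff _ _).1 h

open Classical in
/-- the sign of a dart -/
noncomputable def sg (d : M.G.Dart) : ℝ := if dt M (ed M d) = d then 1 else -1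

theorem sg_symm (d : M.G.Dart) : sg M d.symm = - sg M d := by
  unfold sg
  rw [ed_symm]
  have h0 : d.symm ≠ d := d.symm_ne
  rcases dt_ed M d with h | h
  · rw [h, if_neg h0.symm, if_pos rfl]
  · rw [h, if_pos rfl, if_neg h0, neg_neg]

theorem sg_sq (d : M.G.Dart) : sg M d * sg M d = 1 := by
  unfold sg; split_ifs <;> norm_num

theorem sg_dt (e : M.G.edgeSet) : sg M (dt M e) = 1 := by
  unfold sg; rw [ed_dt, if_pos rfl]

/-- coboundary of vertex functions -/
noncomputable def d0 : (V → ℝ) →ₗ[ℝ] (M.G.edgeSet → ℝ) where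
  toFun φ e := φ (dt M e).snd - φ (dt M e).fst
  map_add' φ ψ := by funext e; simp only [Pi.add_apply]; ring
  map_smul' c φ := by
    funext e; simp only [Pi.smul_apply, smul_eq_mul, RingHom.id_apply]; ring

theorem d0_apply (φ : V → ℝ) (d : M.G.Dart) :
    sg M d * d0 M φ (ed M d) = φ d.snd - φ d.fst := by
  change sg M d * (φ (dt M (ed M d)).snd - φ (dt M (ed M d)).fst) = _
  have h0 : d.symm ≠ d := d.symm_ne
  unfold sg
  rcases dt_ed M d with h | h
  · rw [h, if_pos rfl, one_mul]
  · rw [h, if_neg h0]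
    change -1 * (φ d.fst - φ d.snd) = _
    ring

/-- coboundary of edge functions -/
noncomputable def d1 : (M.G.edgeSet → ℝ) →ₗ[ℝ] (M.Face → ℝ) where
  toFun c f := ∑ d ∈ M.fdarts f, sg M d * c (ed M d)
  map_add' a b := by
    funext f
    simp only [Pi.add_apply, ← Finset.sum_add_distrib, mul_add]
  map_smul' c a := by
    funext f
    simp only [Pi.smul_apply, smul_eq_mul, RingHom.id_apply, Finset.mul_sum]
    exact Finset.sum_congr rfl fun d _ => by ring

theorem d1_apply (c : M.G.edgeSet → ℝ) (f : M.Face) :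
    d1 M c f = ∑ d ∈ M.fdarts f, sg M d * c (ed M d) := rfl

theorem d1_d0 (φ : V → ℝ) : d1 M (d0 M φ) = 0 := by
  funext f
  rw [d1_apply, Finset.sum_congr rfl fun d _ => d0_apply M φ d, Finset.sum_sub_distrib,
    PlaneGraph.sum_snd f φ, sub_self]
  rfl

theorem d1_single (d : M.G.Dart) :
    d1 M (Pi.single (ed M d) (sg M d)) = Pi.single (M.fc d) 1 - Pi.single (M.fc d.symm) 1 := by
  classical
  funext f
  rw [d1_apply, Pi.sub_apply]
  have h1 : ∀ e : M.G.Dart, sg M e * (Pi.single (ed M d) (sg M d) : M.G.edgeSet → ℝ) (ed M e)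
      = (if e = d then 1 else 0) - (if e = d.symm then 1 else 0) := by
    intro e
    rw [Pi.single_apply]
    have h2 : ed M e = ed M d ↔ e = d ∨ e = d.symm := by
      unfold ed
      rw [Subtype.mk.injEq, SimpleGraph.dart_edge_eq_iff]
    by_cases h3 : e = d
    · have h4 : d ≠ d.symm := d.symm_ne.symm
      rw [if_pos (h2.2 (Or.inl h3)), h3, if_pos rfl, if_neg h4, sub_zero, sg_sq]
    · by_cases h4 : e = d.symm
      · rw [if_pos (h2.2 (Or.inr h4)), if_neg h3, if_pos h4, zero_sub, h4, sg_symm,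
          neg_mul, sg_sq]
      · rw [if_neg (fun h => (h2.1 h).elim h3 h4), if_neg h3, if_neg h4, sub_zero, mul_zero]
  rw [Finset.sum_congr rfl fun e _ => h1 e, Finset.sum_sub_distrib, Finset.sum_ite_eq',
    Finset.sum_ite_eq', Pi.single_apply, Pi.single_apply]
  simp only [PlaneGraph.mem_fdarts]
  congr 1
  · by_cases h : M.fc d = f
    · rw [if_pos h, if_pos h.symm]
    · rw [if_neg h, if_neg fun h' => h h'.symm]
  · by_cases h : M.fc d.symm = f
    · rw [if_pos h, if_pos h.symm]
    · rw [if_neg h, if_neg fun h' => h h'.symm]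

variable {M}

theorem finrank_ker_d0 (hc : M.G.Connected) :
    Module.finrank ℝ (LinearMap.ker (d0 M)) ≤ 1 := by
  have h1 : d0 M (fun _ => 1) = 0 := by
    funext e
    exact sub_self _
  refine finrank_le_one (⟨fun _ => 1, h1⟩ : LinearMap.ker (d0 M)) fun w => ?_
  obtain ⟨φ, hφ⟩ := w
  rw [LinearMap.mem_ker] at hφ
  have h2 : ∀ d : M.G.Dart, φ d.fst = φ d.snd := by
    intro d
    have h3 := d0_apply M φ d
    rw [hφ] at h3
    simp only [Pi.zero_apply, mul_zero] at h3
    linarith
  obtain ⟨v0⟩ := hc.nonempty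
  refine ⟨φ v0, Subtype.ext ?_⟩
  funext v
  have := const_conn M hc φ h2 v0 v
  simpa using this

theorem finrank_range_d1 (hc : M.G.Connected) :
    Fintype.card M.Face ≤ Module.finrank ℝ (LinearMap.range (d1 M)) + 1 := by
  classical
  have h1 := Submodule.finrank_quotient_add_finrank (LinearMap.range (d1 M))
  rw [Module.finrank_fintype_fun_eq_card] at h1
  have h2 : Module.finrank ℝ ((M.Face → ℝ) ⧸ LinearMap.range (d1 M)) ≤ 1 := by
    by_cases hD : Nonempty M.G.Dart
    · obtain ⟨e0⟩ := hD
      set S : M.G.Dart → ((M.Face → ℝ) ⧸ LinearMap.range (d1 M)) := fun d =>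
        Submodule.Quotient.mk (Pi.single (M.fc d) 1) with hS
      have hS1 : ∀ d, S (M.nxt d) = S d := fun d => by simp only [hS, M.fc_nxt]
      have hS2 : ∀ d, S d.symm = S d := by
        intro d
        simp only [hS]
        symm
        rw [Submodule.Quotient.eq]
        exact ⟨_, d1_single M d⟩
      have hconst := dart_const M hc S hS1 hS2
      refine finrank_le_one (S e0) fun w => ?_
      obtain ⟨g, rfl⟩ := Submodule.Quotient.mk_surjective _ w
      refine ⟨∑ f, g f, ?_⟩
      have hg : g = ∑ f, g f • (Pi.single f 1 : M.Face → ℝ) := by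
        funext f
        rw [Finset.sum_apply]
        simp [Pi.single_apply]
      conv_rhs => rw [hg]
      rw [← Submodule.mkQ_apply, map_sum, Finset.sum_smul]
      refine Finset.sum_congr rfl fun f _ => ?_
      rw [map_smul, Submodule.mkQ_apply]
      congr 1
      induction f using Quotient.inductionOn with
      | h d => exact hconst e0 d
    · have : IsEmpty M.Face := ⟨fun f => by
        induction f using Quotient.inductionOn with
        | h d => exact hD ⟨d⟩⟩
      have h3 : Fintype.card M.Face = 0 := Fintype.card_eq_zero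
      omega
  omega

theorem exact_mid (hc : M.G.Connected) : LinearMap.range (d0 M) = LinearMap.ker (d1 M) := by
  classical
  refine Submodule.eq_of_le_of_finrank_le ?_ ?_
  · rintro _ ⟨φ, rfl⟩
    exact d1_d0 M φ
  · have h1 := LinearMap.finrank_range_add_finrank_ker (d0 M)
    have h2 := LinearMap.finrank_range_add_finrank_ker (d1 M)
    rw [Module.finrank_fintype_fun_eq_card] at h1 h2
    have h3 := finrank_ker_d0 hc
    have h4 := finrank_range_d1 hc
    have h5 := M.euler
    have h6 : Nat.card (Quotient (Equiv.Perm.SameCycle.setoid M.nxt)) = Fintype.card M.Face :=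
      Nat.card_eq_fintype_card
    rw [h6, SimpleGraph.edgeFinset_card] at h5
    omega

theorem main (hc : M.G.Connected) (c : M.G.Dart → ℝ) (h1 : ∀ d, c d.symm = - c d)
    (h2 : ∀ f : M.Face, ∑ e ∈ M.fdarts f, c e = 0) :
    ∃ u : V → ℝ, ∀ d, c d = u d.snd - u d.fst := by
  set g : M.G.edgeSet → ℝ := fun e => c (dt M e) with hg
  have hgc : ∀ d : M.G.Dart, sg M d * g (ed M d) = c d := by
    intro d
    have h0 : d.symm ≠ d := d.symm_ne
    simp only [hg]
    unfold sg
    rcases dt_ed M d with h | h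
    · rw [h, if_pos rfl, one_mul]
    · rw [h, if_neg h0, h1]; ring
  have h3 : g ∈ LinearMap.ker (d1 M) := by
    rw [LinearMap.mem_ker]
    funext f
    rw [d1_apply, Finset.sum_congr rfl fun d _ => hgc d, h2]
    rfl
  rw [← exact_mid hc] at h3
  obtain ⟨u, hu⟩ := h3
  refine ⟨u, fun d => ?_⟩
  rw [← hgc, ← hu, d0_apply]

end Exact29

theorem exact : ST_EXACT := by
  intro V _ _ M hc c h1 h2
  refine Exact29.main hc c h1 fun f => ?_
  induction f using Quotient.inductionOn with
  | h d =>
    have := h2 d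
    rw [M.face_eq] at this
    exact this

end Pool.Agent.Helper30.N9
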