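import Pool.Agent.Helper26.N9.XCell
import Pool.Agent.Helper27.N9.Xc

/-! MP_9b91d1_co: rows XC4, XSPANBD (helper29). -/

open scoped RealInnerProductSpace Topology

namespace Pool.Agent.Helper29.N9

open Pool.Agent.Helper30.N9 Pool.Agent.Helper30.N9.Cx Pool.Agent.Helper27.N9
open N9X (mem_bd bd_closed not_mem_neg area_id)

section

variable {U D C : Type} [Fintype U] [DecidableEq U] [Fintype D] [DecidableEq D]
    [Fintype C] [DecidableEq C] {X : Cx U D C} {T : Set C} {N : Set E3}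

theorem crs_ne (d : D) : crs (X.qa d) (X.qb d) ≠ 0 := by
  intro h
  have h1 : 0 < ⟪crs (X.qa d) (X.qb d), crs (X.qa d) (X.qb d)⟫ :=
    crs_pos (X.unit (X.fst d)) (X.unit (X.snd d)) (qne d) (X.nn d)
  rw [h, inner_zero_left] at h1
  exact lt_irrefl _ h1

/-- a generic point of an open set: off all planes of arcs -/
theorem exists_off {O : Set E3} (hO : IsOpen O) (hne : O.Nonempty) :
    ∃ y ∈ O, ∀ d, det3 (X.qa d) (X.qb d) y ≠ 0 := by
  classical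
  obtain ⟨y, hy, hg⟩ := exists_generic (Finset.univ.image fun d => crs (X.qa d) (X.qb d))
    (by
      intro n hn
      rw [Finset.mem_image] at hn
      obtain ⟨d, _, rfl⟩ := hn
      exact crs_ne d) hO hne
  refine ⟨y, hy, fun d => ?_⟩
  rw [← crs_inner]
  exact hg _ (Finset.mem_image.mpr ⟨d, Finset.mem_univ _, rfl⟩)

theorem offa_of_det {y : E3} (h : ∀ d, det3 (X.qa d) (X.qb d) y ≠ 0) : X.Offa (nrm y) :=
  fun d => not_mem_arc_of_det (h d)

theorem offa_neg_of_det {y : E3} (h : ∀ d, det3 (X.qa d) (X.qb d) y ≠ 0) :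
    X.Offa (-nrm y) := by
  rw [← nrm_neg]
  intro d
  apply not_mem_arc_of_det
  rw [det3_neg_right]
  exact neg_ne_zero.mpr (h d)

/-- N has inner points -/
theorem exists_open (H : X.Cell T N) :
    ∃ O : Set E3, IsOpen O ∧ O.Nonempty ∧ O ⊆ N ∧ ∀ y ∈ O, y ≠ 0 := by
  obtain ⟨c, hc⟩ := H.ne
  obtain ⟨y, hy, ho, hw⟩ := exists_region (X := X) c
  obtain ⟨O, hO, hop, hyO⟩ := eventually_nhds_iff.mp (eventually_w hy ho c)
  refine ⟨O, hop, ⟨y, hyO⟩, ?_, fun y' hy' => (hO y' hy').1⟩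
  intro y' hy'
  obtain ⟨h1, h2, h3⟩ := hO y' hy'
  rw [hw] at h3
  exact (nrm_mem_iff H h1).mp ((H.reg _ (norm_nrm h1) h2).mp ⟨c, hc, h3⟩)

theorem bd_nonempty (H : X.Cell T N) : (X.bd T).Nonempty := by
  obtain ⟨O, hO, hne, hON, h0⟩ := exists_open H
  obtain ⟨y, hy, hd⟩ := exists_off (X := X) hO hne
  have hy0 := h0 y hy
  have h1 := area_id H (norm_nrm hy0) (offa_of_det hd) (offa_neg_of_det hd)
    ((nrm_mem_iff H hy0).mpr (hON hy))
  by_contra hcon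
  rw [Finset.not_nonempty_iff_eq_empty] at hcon
  rw [hcon] at h1
  unfold SA at h1
  rw [Finset.sum_empty, Finset.sum_empty] at h1
  have := Real.pi_pos
  linarith

theorem qa_mem (H : X.Cell T N) {d : D} (hd : X.left d ∈ T) : X.qa d ∈ N :=
  st_XC2 U D C X T N H d hd (left_mem_arc (X.unit _))

theorem qb_mem (H : X.Cell T N) {d : D} (hd : X.left d ∈ T) : X.qb d ∈ N :=
  st_XC2 U D C X T N H d hd (right_mem_arc (X.unit _))

theorem convex_N (H : X.Cell T N) : Convex ℝ N := by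
  intro x hx y hy a b ha hb _
  exact H.cvx x hx y hy a b ha hb

theorem xc4 (H : X.Cell T N) : (X.bd T).Nonempty ∧ ∃ ν : E3, ‖ν‖ = 1 ∧ X.Offa ν ∧
    X.Offa (-ν) ∧ ν ∈ N ∧ (∀ d ∈ X.bd T, 0 < det3 (X.qa d) (X.qb d) ν) ∧
      (∀ d, X.left d ∈ T → 0 < ⟪ν, X.qa d⟫) := by
  refine ⟨bd_nonempty H, ?_⟩
  obtain ⟨O, hO, ⟨o, ho⟩, hON, h0⟩ := exists_open H
  -- the vertices
  obtain ⟨P, hP⟩ : ∃ P : Set E3, P = {x | ∃ d, X.left d ∈ T ∧ X.qa d = x} := ⟨_, rfl⟩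
  have hPfin : P.Finite := by
    apply (Set.finite_range X.qa).subset
    rw [hP]
    rintro x ⟨d, _, rfl⟩
    exact ⟨d, rfl⟩
  have hPN : P ⊆ N := by
    rw [hP]
    rintro x ⟨d, hd, rfl⟩
    exact qa_mem H hd
  have hPne : P.Nonempty := by
    obtain ⟨d, hd⟩ := bd_nonempty H
    rw [hP]
    exact ⟨X.qa d, d, (mem_bd.mp hd).1, rfl⟩
  obtain ⟨s, hs⟩ := H.pointed
  have hKN : convexHull ℝ P ⊆ N := convexHull_min hPN (convex_N H)
  have hKs : convexHull ℝ P ⊆ {y | 0 < ⟪s, y⟫} := by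
    apply convexHull_min
    · rw [hP]
      rintro x ⟨d, hd, rfl⟩
      exact hs _ (qa_mem H hd) (ne_zero_of_unit (X.unit _))
    · intro x hx y hy a b ha hb hab
      have hx' : 0 < ⟪s, x⟫ := hx
      have hy' : 0 < ⟪s, y⟫ := hy
      show 0 < ⟪s, a • x + b • y⟫
      rw [inner_add_right, real_inner_smul_right, real_inner_smul_right]
      rcases ha.lt_or_eq with h | h
      · have := mul_pos h hx'
        have := mul_nonneg hb hy'.le
        linarith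
      · rw [← h] at hab ⊢
        rw [zero_add] at hab
        rw [hab]; linarith
  obtain ⟨v, hv, hmin⟩ := exists_norm_eq_iInf_of_complete_convex (K := convexHull ℝ P)
    hPne.convexHull (hPfin.isCompact_convexHull (𝕜 := ℝ)).isComplete (convex_convexHull ℝ P) 0
  rw [norm_eq_iInf_iff_real_inner_le_zero (convex_convexHull ℝ P) hv] at hmin
  have hv0 : v ≠ 0 := by
    rintro rfl
    have : 0 < ⟪s, (0 : E3)⟫ := hKs hv
    rw [inner_zero_right] at this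
    exact lt_irrefl _ this
  have hvv : 0 < ‖v‖ ^ 2 := by have := norm_pos_iff.mpr hv0; positivity
  have hvp : ∀ d, X.left d ∈ T → ‖v‖ ^ 2 ≤ ⟪v, X.qa d⟫ := by
    intro d hd
    have h1 := hmin (X.qa d) (subset_convexHull ℝ P (by rw [hP]; exact ⟨d, hd, rfl⟩))
    rw [zero_sub, inner_neg_left, inner_sub_right, real_inner_self_eq_norm_sq] at h1
    linarith
  obtain ⟨ε, hε⟩ : ∃ ε : ℝ, ε = ‖v‖ ^ 2 / (2 * (‖o‖ + 1)) := ⟨_, rfl⟩
  have hopos : 0 < ‖o‖ + 1 := by have := norm_nonneg o; linarith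
  have hε0 : 0 < ε := by rw [hε]; positivity
  -- the open set
  obtain ⟨O1, hO1⟩ : ∃ O1 : Set E3, O1 = {z | ε⁻¹ • (z - v) ∈ O} := ⟨_, rfl⟩
  obtain ⟨O2, hO2⟩ : ∃ O2 : Set E3, O2 = {z | ∀ d, X.left d ∈ T → 0 < ⟪z, X.qa d⟫} := ⟨_, rfl⟩
  have hop1 : IsOpen O1 := by
    rw [hO1]
    exact hO.preimage (by fun_prop)
  have hop2 : IsOpen O2 := by
    have : O2 = ⋂ d : D, {z | X.left d ∈ T → 0 < ⟪z, X.qa d⟫} := by
      rw [hO2]; ext z; simp
    rw [this]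
    apply isOpen_iInter_of_finite
    intro d
    by_cases hd : X.left d ∈ T
    · have h2 : {z : E3 | X.left d ∈ T → 0 < ⟪z, X.qa d⟫} = {z | 0 < ⟪z, X.qa d⟫} := by
        ext z; simp [hd]
      rw [h2]
      exact isOpen_lt continuous_const (by fun_prop)
    · have h2 : {z : E3 | X.left d ∈ T → 0 < ⟪z, X.qa d⟫} = Set.univ := by
        ext z; simp [hd]
      rw [h2]
      exact isOpen_univ
  have hne : (O1 ∩ O2).Nonempty := by
    refine ⟨v + ε • o, ?_, ?_⟩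
    · rw [hO1]
      show ε⁻¹ • (v + ε • o - v) ∈ O
      rw [add_sub_cancel_left, smul_smul, inv_mul_cancel₀ hε0.ne', one_smul]
      exact ho
    · rw [hO2]
      intro d hd
      rw [inner_add_left, real_inner_smul_left]
      have h1 := hvp d hd
      have h2 : |⟪o, X.qa d⟫| ≤ ‖o‖ * ‖X.qa d‖ := abs_real_inner_le_norm _ _
      have h2' : ‖X.qa d‖ = 1 := X.unit _
      rw [h2', mul_one] at h2
      have h3 := (abs_le.mp h2).1
      have h4 : ε * (‖o‖ + 1) = ‖v‖ ^ 2 / 2 := by rw [hε]; field_simp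
      have h5 : ε * ⟪o, X.qa d⟫ ≥ ε * (-‖o‖) := mul_le_mul_of_nonneg_left h3 hε0.le
      nlinarith
  obtain ⟨y, ⟨hy1, hy2⟩, hd⟩ := exists_off (X := X) (hop1.inter hop2) hne
  rw [hO1] at hy1
  rw [hO2] at hy2
  have hyN : y ∈ N := by
    have h1 := H.cvx v (hKN hv) _ (hON hy1) 1 ε zero_le_one hε0.le
    rwa [one_smul, smul_smul, mul_inv_cancel₀ hε0.ne', one_smul, add_sub_cancel] at h1
  have hy0 : y ≠ 0 := by
    rintro rfl
    obtain ⟨d, hdb⟩ := bd_nonempty H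
    have := hy2 d (mem_bd.mp hdb).1
    rw [inner_zero_left] at this
    exact lt_irrefl _ this
  have hnpos : 0 < ‖y‖⁻¹ := inv_pos.mpr (norm_pos_iff.mpr hy0)
  refine ⟨nrm y, norm_nrm hy0, offa_of_det hd, offa_neg_of_det hd,
    (nrm_mem_iff H hy0).mpr hyN, ?_, ?_⟩
  · intro d hdb
    rw [det3_nrm]
    have h1 := st_XC1 U D C X T N H d hdb y hyN
    exact mul_pos hnpos (lt_of_le_of_ne h1 (Ne.symm (hd d)))
  · intro d hdT
    unfold nrm
    rw [real_inner_smul_left]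
    exact mul_pos hnpos (hy2 d hdT)

/-- coordinates: if n is orthogonal to s then n is a cross product s x m up to a factor -/
theorem det_perp {s n a b : E3} (hsn : ⟪s, n⟫ = 0) :
    ⟪s, s⟫ * det3 a b n = ⟪a, s⟫ * ⟪b, crs n s⟫ - ⟪a, crs n s⟫ * ⟪b, s⟫ := by
  rw [inner_def] at hsn
  simp only [inner_def, crs, det3]
  simp
  linear_combination (a 0 * (b 1 * s 2 - b 2 * s 1) - a 1 * (b 0 * s 2 - b 2 * s 0)
    + a 2 * (b 0 * s 1 - b 1 * s 0)) * hsn

theorem xspanbd (H : X.Cell T N) (y : E3)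
    (hy : ∀ d ∈ X.bd T, det3 (X.qa d) (X.qb d) y = 0) : y = 0 := by
  by_contra hy0
  obtain ⟨⟨d0, hd0⟩, ν, hν, _, _, _, hdet, _⟩ := xc4 H
  obtain ⟨s0, hs0⟩ := H.pointed
  -- a functional positive on the boundary vertices and not vanishing at y
  obtain ⟨s, hs, hsy⟩ : ∃ s : E3, (∀ d ∈ X.bd T, 0 < ⟪s, X.qa d⟫ ∧ 0 < ⟪s, X.qb d⟫) ∧
      ⟪s, y⟫ ≠ 0 := by
    have hopen : IsOpen {s : E3 | ∀ d ∈ X.bd T, 0 < ⟪s, X.qa d⟫ ∧ 0 < ⟪s, X.qb d⟫} := by
      have : {s : E3 | ∀ d ∈ X.bd T, 0 < ⟪s, X.qa d⟫ ∧ 0 < ⟪s, X.qb d⟫}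
          = ⋂ d ∈ X.bd T, ({s | 0 < ⟪s, X.qa d⟫} ∩ {s | 0 < ⟪s, X.qb d⟫}) := by
        ext z; simp
      rw [this]
      apply isOpen_biInter_finset
      intro d _
      exact (isOpen_lt continuous_const (by fun_prop)).inter
        (isOpen_lt continuous_const (by fun_prop))
    obtain ⟨s, h1, h2⟩ := exists_generic {y} (by simpa using hy0) hopen
      ⟨s0, fun d hd => ⟨hs0 _ (qa_mem H (mem_bd.mp hd).1) (ne_zero_of_unit (X.unit _)),
        hs0 _ (qb_mem H (mem_bd.mp hd).1) (ne_zero_of_unit (X.unit _))⟩⟩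
    refine ⟨s, h1, ?_⟩
    rw [real_inner_comm]
    exact h2 y (by simp)
  obtain ⟨n, hn⟩ : ∃ n : E3, n = ν - (⟪s, ν⟫ / ⟪s, y⟫) • y := ⟨_, rfl⟩
  have hsn : ⟪s, n⟫ = 0 := by
    rw [hn, inner_sub_right, real_inner_smul_right]
    field_simp
    ring
  have hdn : ∀ d ∈ X.bd T, 0 < det3 (X.qa d) (X.qb d) n := by
    intro d hd
    rw [hn, det3_sub_right, det3_smul_right, hy d hd, mul_zero, sub_zero]
    exact hdet d hd
  have hss : 0 < ⟪s, s⟫ := by
    rw [real_inner_self_eq_norm_sq]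
    have : s ≠ 0 := by
      rintro rfl
      rw [inner_zero_left] at hsy
      exact hsy rfl
    have := norm_pos_iff.mpr this
    positivity
  have hcl := bd_closed (X := X) T (fun u => ⟪X.p u, crs n s⟫ / ⟪s, X.p u⟫)
  have hlt : ∑ d ∈ X.bd T, ⟪X.p (X.fst d), crs n s⟫ / ⟪s, X.p (X.fst d)⟫
      < ∑ d ∈ X.bd T, ⟪X.p (X.snd d), crs n s⟫ / ⟪s, X.p (X.snd d)⟫ := by
    apply Finset.sum_lt_sum_of_nonempty ⟨d0, hd0⟩
    intro d hd
    obtain ⟨h1, h2⟩ := hs d hd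
    have h3 := hdn d hd
    have h4 := det_perp (a := X.qa d) (b := X.qb d) hsn
    have h5 := mul_pos hss h3
    rw [h4, real_inner_comm s (X.qa d), real_inner_comm s (X.qb d)] at h5
    have h1' : 0 < ⟪s, X.p (X.fst d)⟫ := h1
    have h2' : 0 < ⟪s, X.p (X.snd d)⟫ := h2
    have h5' : 0 < ⟪s, X.p (X.fst d)⟫ * ⟪X.p (X.snd d), crs n s⟫
      - ⟪X.p (X.fst d), crs n s⟫ * ⟪s, X.p (X.snd d)⟫ := h5
    rw [div_lt_div_iff₀ h1' h2']
    linarith
  rw [hcl] at hlt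
  exact lt_irrefl _ hlt

end

theorem st_XC4 : ST_XC4 := by
  intro U D C _ _ _ _ _ _ X T N H
  exact xc4 H

theorem st_XSPANBD : ST_XSPANBD := by
  intro U D C _ _ _ _ _ _ X T N H y hy
  exact xspanbd H y hy

end Pool.Agent.Helper29.N9
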